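import Mathlib

/-!
# A submodular function expressible by binary submodular functions outside of the cone of fans

For `k ≥ 5` the function `f(x) = - max(0, x₁ + x₂ + x₃ + x₄ + 2 x₅ - 3)` on `{0,1}ᵏ` is submodular,
it is expressible by binary submodular functions with one additional variable, and it is not a
nonnegative combination of fans and a constant. The last statement is certified by a linear
functional on the functions on `{0,1}⁵`.
-/

set_option autoImplicit false

namespace Pool.Agent.Results.MP_09575c_lc.NotInCone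


/-- The Boolean lattice `{0,1}ᵏ`. -/
abbrev B (k : ℕ) : Type := Fin k → Bool

/-- `f` is submodular. -/
def Submodular {k : ℕ} (f : B k → ℝ) : Prop := ∀ u v, f (u ⊓ v) + f (u ⊔ v) ≤ f u + f v

/-- `f` is expressible by binary submodular functions: `f(x)` is the minimum over `y ∈ {0,1}ʲ` of
`∑ i, αᵢ gᵢ(zᵢ, zᵢ') + κ` with binary submodular `gᵢ`, reals `αᵢ ≥ 0` and variables `zᵢ, zᵢ'` among
the entries of `x` (`Sum.inl`) and of `y` (`Sum.inr`). -/
def Expressible {n : ℕ} (f : B n → ℝ) : Prop :=
  ∃ (j N : ℕ) (g : Fin N → B 2 → ℝ) (α : Fin N → ℝ) (z z' : Fin N → Fin n ⊕ Fin j) (κ : ℝ),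
    (∀ i, Submodular (g i)) ∧ (∀ i, 0 ≤ α i) ∧
    ∀ x : B n, IsLeast (Set.range fun y : B j =>
      (∑ i, α i * g i ![Sum.elim x y (z i), Sum.elim x y (z' i)]) + κ) (f x)

open Classical in
/-- The upper fan of `A`: `-2` above the join of `A`, otherwise `-1` above some element of `A`, and
`0` elsewhere. -/
noncomputable def upperFan {k : ℕ} (A : Finset (B k)) (x : B k) : ℝ :=
  if A.sup id ≤ x then -2 else if ∃ a ∈ A, a ≤ x then -1 else 0

open Classical in
/-- The lower fan of `A`: `-2` below the meet of `A`, otherwise `-1` below some element of `A`, and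
`0` elsewhere. -/
noncomputable def lowerFan {k : ℕ} (A : Finset (B k)) (x : B k) : ℝ :=
  if x ≤ A.inf id then -2 else if ∃ a ∈ A, x ≤ a then -1 else 0

/-- `φ` is the upper fan of a set of pairwise incomparable elements with equal pairwise joins. -/
def IsUpperFan {k : ℕ} (φ : B k → ℝ) : Prop :=
  ∃ A : Finset (B k), (∀ a ∈ A, ∀ b ∈ A, a ≠ b → ¬ a ≤ b) ∧
    (∀ a ∈ A, ∀ b ∈ A, a ≠ b → a ⊔ b = A.sup id) ∧ φ = upperFan A

/-- `φ` is the lower fan of a set of pairwise incomparable elements with equal pairwise meets. -/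
def IsLowerFan {k : ℕ} (φ : B k → ℝ) : Prop :=
  ∃ A : Finset (B k), (∀ a ∈ A, ∀ b ∈ A, a ≠ b → ¬ a ≤ b) ∧
    (∀ a ∈ A, ∀ b ∈ A, a ≠ b → a ⊓ b = A.inf id) ∧ φ = lowerFan A

/-- `f` is a nonnegative combination of fans plus a real constant. -/
def InFanCone {k : ℕ} (f : B k → ℝ) : Prop :=
  ∃ (N : ℕ) (φ : Fin N → B k → ℝ) (c : Fin N → ℝ) (κ : ℝ),
    (∀ i, IsUpperFan (φ i) ∨ IsLowerFan (φ i)) ∧ (∀ i, 0 ≤ c i) ∧
    ∀ x, f x = ∑ i, c i * φ i x + κ

/-! ### The certificate -/

/-- the linear functional -/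
def lam : List ℤ := [-2, -1, 0, 1, 0, 1, 1, -1, 1, 1, 1, -1, 1, -1, -2, 1, 2, -2, -1, 1, -1, 1, 0,
  1, -2, 2, 1, -1, 1, -1, 0, -1]

/-- the element of `{0,1}⁵` with number `n` -/
def dec (n : ℕ) : B 5 := fun i => n.testBit i

/-- the value of the functional -/
def L (φ : B 5 → ℝ) : ℝ := ((List.range 32).map fun n => ((lam.getD n 0 : ℤ) : ℝ) * φ (dec n)).sum

def LZ (φ : B 5 → ℤ) : ℤ := ((List.range 32).map fun n => lam.getD n 0 * φ (dec n)).sum

theorem L_cast (φ : B 5 → ℝ) (ψ : B 5 → ℤ) (h : ∀ x, φ x = ψ x) : L φ = (LZ ψ : ℝ) := by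
  rw [L, LZ, Int.cast_list_sum, List.map_map]
  congr 1
  refine List.map_congr_left fun n _ => ?_
  simp [h]

theorem L_add (φ ψ : B 5 → ℝ) : L (fun x => φ x + ψ x) = L φ + L ψ := by
  rw [L, L, L, ← List.sum_map_add]
  congr 1
  refine List.map_congr_left fun n _ => ?_
  ring

theorem L_smul (c : ℝ) (φ : B 5 → ℝ) : L (fun x => c * φ x) = c * L φ := by
  rw [L, L, ← List.sum_map_mul_left]
  congr 1
  refine List.map_congr_left fun n _ => ?_
  ring

theorem L_const (c : ℝ) : L (fun _ => c) = 0 := by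
  have h := L_cast (fun _ => 1) (fun _ => 1) (fun _ => by simp)
  have h2 : LZ (fun _ => 1) = 0 := by decide
  have h3 := L_smul c (fun _ => 1)
  rw [h, h2] at h3
  simpa using h3

theorem L_sum {N : ℕ} (φ : Fin N → B 5 → ℝ) : L (fun x => ∑ i, φ i x) = ∑ i, L (φ i) := by
  induction N with
  | zero => simpa using L_const 0
  | succ N ih =>
    rw [Fin.sum_univ_succ, ← ih, ← L_add]
    congr 1
    funext x
    rw [Fin.sum_univ_succ]

/-- the elements with label `l` or `6` -/
def part (g : Fin 5 → ℕ) (l : ℕ) : B 5 := fun i => g i == l || g i == 6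

/-- `x ≤ P`, as a Boolean -/
def le5 (x P : B 5) : Bool :=
  (!x 0 || P 0) && ((!x 1 || P 1) && ((!x 2 || P 2) && ((!x 3 || P 3) && (!x 4 || P 4))))

theorem le5_iff (x P : B 5) : le5 x P = true ↔ ∀ i, x i = true → P i = true := by
  have h : ∀ (b c : Bool), (!b || c) = true ↔ (b = true → c = true) := by decide
  simp only [le5, Bool.and_eq_true, h, Fin.forall_fin_succ]
  constructor
  · rintro ⟨h0, h1, h2, h3, h4⟩
    exact ⟨h0, h1, h2, h3, h4, fun i => i.elim0⟩
  · rintro ⟨h0, h1, h2, h3, h4, -⟩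
    exact ⟨h0, h1, h2, h3, h4⟩

/-- `x` is contained in the part with label `l` and the part with label `6` -/
def ok (g : Fin 5 → ℕ) (l : ℕ) (x : B 5) : Bool := le5 x (part g l)

theorem ok_iff (g : Fin 5 → ℕ) (l : ℕ) (x : B 5) :
    ok g l x = true ↔ ∀ i, x i = true → g i = l ∨ g i = 6 := by
  rw [ok, le5_iff]
  simp [part]

/-- the function defined by the labels -/
def psi (g : Fin 5 → ℕ) (x : B 5) : ℤ :=
  -(if ok g 6 x then 1 else 0) -
    (if ok g 0 x || ok g 1 x || ok g 2 x || ok g 3 x || ok g 4 x then 1 else 0)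

theorem psi_eq (g : Fin 5 → ℕ) (x : B 5) : psi g x = 3 * (if ok g 6 x then 1 else 0) -
    (if ok g 0 x then 1 else 0) - (if ok g 1 x then 1 else 0) - (if ok g 2 x then 1 else 0) -
    (if ok g 3 x then 1 else 0) - (if ok g 4 x then 1 else 0) := by
  by_cases h6 : ok g 6 x = true
  · have h : ∀ l, ok g l x = true := by
      intro l
      rw [ok_iff] at h6 ⊢
      intro i hi
      right
      simpa using h6 i hi
    simp [psi, h]
  · have h : ∀ l l', l ≠ l' → ok g l x = true → ok g l' x = false := by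
      intro l l' hll hl
      by_contra hl'
      rw [Bool.not_eq_false] at hl'
      apply h6
      rw [ok_iff] at hl hl' ⊢
      intro i hi
      right
      rcases hl i hi with h1 | h1 <;> rcases hl' i hi with h2 | h2
      · exact absurd (h1.symm.trans h2) hll
      all_goals assumption
    have h6' : ok g 6 x = false := by simpa using h6
    rw [psi, h6']
    rcases h0 : ok g 0 x with _ | _
    · rcases h1 : ok g 1 x with _ | _
      · rcases h2 : ok g 2 x with _ | _
        · rcases h3 : ok g 3 x with _ | _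
          · rcases h4 : ok g 4 x with _ | _ <;> simp
          · rw [h 3 4 (by norm_num) h3]; simp
        · rw [h 2 3 (by norm_num) h2, h 2 4 (by norm_num) h2]; simp
      · rw [h 1 2 (by norm_num) h1, h 1 3 (by norm_num) h1, h 1 4 (by norm_num) h1]; simp
    · rw [h 0 1 (by norm_num) h0, h 0 2 (by norm_num) h0, h 0 3 (by norm_num) h0,
        h 0 4 (by norm_num) h0]; simp

/-- complement -/
def cpl (x : B 5) : B 5 := fun i => !x i

/-- values of the functional at the functions `[x ≤ P]` and `[xᶜ ≤ P]` -/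
def T (s : Bool) : List ℤ := if s then
  [-1, -1, -2, -1, -2, -1, -1, -1, 0, 0, 0, 0, 0, 0, 0, 0, 0, -2, -2, -2, -2, -2, -1, 0, 0, -1, 0, 0, 0, 0, 0, 0] else
  [-2, -3, -2, -2, -2, -2, -1, -1, -1, -1, 0, 0, 0, 0, 0, 0, 0, -3, -1, -2, -1, -2, -1, 0, -1, -1, 0, 0, 0, 0, 0, 0]

/-- the number of an element of `{0,1}⁵` -/
def code (P : B 5) : ℕ :=
  (P 0).toNat + 2 * (P 1).toNat + 4 * (P 2).toNat + 8 * (P 3).toNat + 16 * (P 4).toNat

theorem table' : ∀ s b0 b1 b2 b3 b4 : Bool,
    LZ (fun x => if le5 (if s then cpl x else x) ![b0, b1, b2, b3, b4] then 1 else 0) =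
      (T s).getD (code ![b0, b1, b2, b3, b4]) 0 := by decide +kernel

theorem table (s : Bool) (P : B 5) :
    LZ (fun x => if le5 (if s then cpl x else x) P then 1 else 0) = (T s).getD (code P) 0 := by
  have h := table' s (P 0) (P 1) (P 2) (P 3) (P 4)
  have hP : ![P 0, P 1, P 2, P 3, P 4] = P := by
    funext i
    fin_cases i <;> rfl
  rwa [hP] at h

theorem LZ_lin (f0 f1 f2 f3 f4 f6 : B 5 → ℤ) :
    LZ (fun x => 3 * f6 x - f0 x - f1 x - f2 x - f3 x - f4 x) =
      3 * LZ f6 - LZ f0 - LZ f1 - LZ f2 - LZ f3 - LZ f4 := by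
  unfold LZ
  induction List.range 32 with
  | nil => simp
  | cons a l ih =>
    simp only [List.map_cons, List.sum_cons]
    rw [ih]
    ring

/-- decoding of the labels: part numbers at most `i`, then `5` and `6` -/
def lab (i a : ℕ) : ℕ := if a ≤ i then a else a + (4 - i)

/-- the bit of a label in the part with number `l` -/
def bt (m l : ℕ) : ℕ := if m == l || m == 6 then 1 else 0

/-- the table value of the part `l` -/
def tv (s : Bool) (m0 m1 m2 m3 m4 l : ℕ) : ℤ :=
  (T s).getD (bt m0 l + 2 * bt m1 l + 4 * bt m2 l + 8 * bt m3 l + 16 * bt m4 l) 0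

def chk (s : Bool) : Bool :=
  (List.range 3).all fun a0 => (List.range 4).all fun a1 => (List.range 5).all fun a2 =>
  (List.range 6).all fun a3 => (List.range 7).all fun a4 =>
    decide (0 ≤ 3 * tv s (lab 0 a0) (lab 1 a1) (lab 2 a2) (lab 3 a3) (lab 4 a4) 6
      - tv s (lab 0 a0) (lab 1 a1) (lab 2 a2) (lab 3 a3) (lab 4 a4) 0
      - tv s (lab 0 a0) (lab 1 a1) (lab 2 a2) (lab 3 a3) (lab 4 a4) 1
      - tv s (lab 0 a0) (lab 1 a1) (lab 2 a2) (lab 3 a3) (lab 4 a4) 2
      - tv s (lab 0 a0) (lab 1 a1) (lab 2 a2) (lab 3 a3) (lab 4 a4) 3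
      - tv s (lab 0 a0) (lab 1 a1) (lab 2 a2) (lab 3 a3) (lab 4 a4) 4)

theorem chk_false : chk false = true := by decide +kernel

theorem chk_true : chk true = true := by decide +kernel

theorem lab_surj (i m : ℕ) (hi : i ≤ 4) (hm : m ≤ i ∨ m = 5 ∨ m = 6) :
    ∃ a < i + 3, lab i a = m := by
  unfold lab
  rcases hm with h | h | h
  · exact ⟨m, by omega, by rw [if_pos h]⟩
  · exact ⟨i + 1, by omega, by rw [if_neg (by omega)]; omega⟩
  · exact ⟨i + 2, by omega, by rw [if_neg (by omega)]; omega⟩

theorem LZ_ok (s : Bool) (g : Fin 5 → ℕ) (l : ℕ) :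
    LZ (fun x => if ok g l (if s then cpl x else x) then 1 else 0) =
      tv s (g 0) (g 1) (g 2) (g 3) (g 4) l := by
  have h := table s (part g l)
  have hc : code (part g l) = bt (g 0) l + 2 * bt (g 1) l + 4 * bt (g 2) l + 8 * bt (g 3) l +
      16 * bt (g 4) l := by
    have h1 : ∀ m : ℕ, (m == l || m == 6).toNat = bt m l := by
      intro m
      unfold bt
      cases (m == l || m == 6) <;> rfl
    simp only [code, part, h1]
  rw [hc] at h
  exact h

theorem LZ_psi_nonneg (s : Bool) (g : Fin 5 → ℕ) (hg : ∀ i, g i ≤ i ∨ g i = 5 ∨ g i = 6) :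
    0 ≤ LZ fun x => psi g (if s then cpl x else x) := by
  have hs : chk s = true := by
    cases s
    · exact chk_false
    · exact chk_true
  obtain ⟨a0, h0, e0⟩ := lab_surj 0 (g 0) (by norm_num) (hg 0)
  obtain ⟨a1, h1, e1⟩ := lab_surj 1 (g 1) (by norm_num) (hg 1)
  obtain ⟨a2, h2, e2⟩ := lab_surj 2 (g 2) (by norm_num) (hg 2)
  obtain ⟨a3, h3, e3⟩ := lab_surj 3 (g 3) (by norm_num) (hg 3)
  obtain ⟨a4, h4, e4⟩ := lab_surj 4 (g 4) (by norm_num) (hg 4)
  unfold chk at hs
  simp only [List.all_eq_true, List.mem_range, decide_eq_true_eq] at hs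
  have h := hs a0 h0 a1 h1 a2 h2 a3 h3 a4 h4
  rw [e0, e1, e2, e3, e4] at h
  simp only [← LZ_ok] at h
  simp only [psi_eq]
  rw [LZ_lin]
  exact h

/-! ### Families with equal pairwise meets -/

theorem exists_labels (m : B 5) (F : Set (B 5)) (hF : F.Nonempty) (hm : ∀ a ∈ F, m ≤ a)
    (hmeet : ∀ a ∈ F, ∀ b ∈ F, a ≠ b → a ⊓ b = m) :
    ∃ g : Fin 5 → ℕ, (∀ i, g i ≤ i ∨ g i = 5 ∨ g i = 6) ∧
      (∀ x : B 5, x ≤ m ↔ ok g 6 x = true) ∧
      (∀ x : B 5, (∃ a ∈ F, x ≤ a) ↔ ∃ l < 5, ok g l x = true) := by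
  classical
  have huniq : ∀ a ∈ F, ∀ b ∈ F, ∀ i, a i = true → b i = true → m i = false → a = b := by
    intro a ha b hb i h1 h2 h3
    by_contra hab
    have := congrFun (hmeet a ha b hb hab) i
    simp [h1, h2, h3] at this
  have hlast : ∀ (a : B 5) (i : Fin 5), a i = true ∧ m i = false →
      ∃ j : Fin 5, (a j = true ∧ m j = false) ∧ ∀ j', (a j' = true ∧ m j' = false) → j ≤ j' := by
    intro a i hi
    have hne : (Finset.univ.filter fun j : Fin 5 => a j = true ∧ m j = false).Nonempty :=
      ⟨i, by simpa using hi⟩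
    refine ⟨Finset.min' _ hne, ?_, ?_⟩
    · simpa using Finset.min'_mem _ hne
    · intro j' hj'
      exact Finset.min'_le _ _ (by simpa using hj')
  -- the label of `i`
  have hex : ∀ i : Fin 5, ∃ n : ℕ, (n ≤ i ∨ n = 5 ∨ n = 6) ∧ (n = 6 ↔ m i = true) ∧
      (m i = false → ∀ a ∈ F, a i = true → ∃ j : Fin 5, (j : ℕ) = n ∧ (a j = true ∧ m j = false) ∧
        ∀ j', (a j' = true ∧ m j' = false) → j ≤ j') ∧
      (m i = false → n < 5 → ∃ a ∈ F, a i = true) := by
    intro i
    by_cases h1 : m i = true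
    · refine ⟨6, Or.inr (Or.inr rfl), by simp [h1], fun h => ?_, fun h => ?_⟩
      · rw [h1] at h; exact absurd h (by decide)
      · rw [h1] at h; exact absurd h (by decide)
    · have h1' : m i = false := by simpa using h1
      by_cases h2 : ∃ a ∈ F, a i = true
      · obtain ⟨a, ha, hai⟩ := h2
        obtain ⟨j, hj1, hj2⟩ := hlast a i ⟨hai, h1'⟩
        refine ⟨j, Or.inl (hj2 i ⟨hai, h1'⟩), ?_, ?_, fun _ _ => ⟨a, ha, hai⟩⟩
        · constructor
          · intro h; have := j.isLt; omega
          · intro h; exact absurd h h1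
        · intro _ b hb hbi
          obtain rfl := huniq a ha b hb i hai hbi h1'
          exact ⟨j, rfl, hj1, hj2⟩
      · refine ⟨5, Or.inr (Or.inl rfl), by simp [h1'], ?_, ?_⟩
        · intro _ a ha hai
          exact absurd ⟨a, ha, hai⟩ h2
        · intro _ h; omega
  choose g hg1 hg2 hg3 hg4 using hex
  refine ⟨g, hg1, ?_, ?_⟩
  · intro x
    rw [ok_iff]
    constructor
    · intro h i hi
      have : m i = true := by
        have := h i
        rw [hi] at this
        exact top_le_iff.1 this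
      exact Or.inl ((hg2 i).2 this)
    · intro h i
      rcases hx : x i with _ | _
      · exact Bool.false_le _
      · have := h i hx
        simp only [or_self] at this
        rw [(hg2 i).1 this]
  · intro x
    constructor
    · rintro ⟨a, ha, hxa⟩
      have hxa' : ∀ i, x i = true → a i = true := by
        intro i hi
        have := hxa i
        rw [hi] at this
        exact top_le_iff.1 this
      by_cases h : ∃ i, a i = true ∧ m i = false
      · obtain ⟨i, hi⟩ := h
        obtain ⟨j, hj1, hj2⟩ := hlast a i hi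
        refine ⟨j, j.isLt, (ok_iff _ _ _).2 fun i' hi' => ?_⟩
        rcases hm' : m i' with _ | _
        · left
          obtain ⟨j', e, h1, h2⟩ := hg3 i' hm' a ha (hxa' i' hi')
          have : j' = j := le_antisymm (h2 j hj1) (hj2 j' h1)
          rw [← e, this]
        · right
          exact (hg2 i').2 hm'
      · refine ⟨0, by norm_num, (ok_iff _ _ _).2 fun i' hi' => ?_⟩
        right
        rw [hg2 i']
        by_contra hm'
        exact h ⟨i', hxa' i' hi', by simpa using hm'⟩
    · rintro ⟨l, hl, hok⟩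
      rw [ok_iff] at hok
      by_cases hxm : x ≤ m
      · obtain ⟨a, ha⟩ := hF
        exact ⟨a, ha, hxm.trans (hm a ha)⟩
      · have h1 : ∃ i, x i = true ∧ m i = false := by
          by_contra hcon
          push Not at hcon
          apply hxm
          intro i
          rcases hx : x i with _ | _
          · exact Bool.false_le _
          · have := hcon i hx
            simp only [ne_eq, Bool.not_eq_false] at this
            rw [this]
        obtain ⟨i, hxi, hmi⟩ := h1
        have hgi : g i = l := by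
          rcases hok i hxi with h | h
          · exact h
          · rw [(hg2 i).1 h] at hmi
            exact absurd hmi (by decide)
        obtain ⟨a, ha, hai⟩ := hg4 i hmi (by omega)
        obtain ⟨j, hj0, hj1, hj2⟩ := hg3 i hmi a ha hai
        refine ⟨a, ha, fun i' => ?_⟩
        rcases hx : x i' with _ | _
        · exact Bool.false_le _
        · rcases hm' : m i' with _ | _
          · have hgi' : g i' = l := by
              rcases hok i' hx with h | h
              · exact h
              · rw [(hg2 i').1 h] at hm'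
                exact absurd hm' (by decide)
            obtain ⟨b, hb, hbi⟩ := hg4 i' hm' (by omega)
            obtain ⟨j', hj0', hj1', hj2'⟩ := hg3 i' hm' b hb hbi
            have hjj : j' = j := by
              apply Fin.ext
              rw [hj0', hj0, hgi, hgi']
            subst hjj
            obtain rfl := huniq a ha b hb j' hj1.1 hj1'.1 hj1.2
            rw [hbi]
          · have := hm a ha i'
            rw [hm'] at this
            exact this

open Classical in
/-- the function `-[x ≤ m] - [x ≤ a for some a ∈ F]` -/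
noncomputable def low (m : B 5) (F : Set (B 5)) (x : B 5) : ℝ :=
  -(if x ≤ m then 1 else 0) - (if ∃ a ∈ F, x ≤ a then 1 else 0)

theorem low_eq (m : B 5) (F : Set (B 5)) (hF : F.Nonempty) (hm : ∀ a ∈ F, m ≤ a)
    (hmeet : ∀ a ∈ F, ∀ b ∈ F, a ≠ b → a ⊓ b = m) :
    ∃ g : Fin 5 → ℕ, (∀ i, g i ≤ i ∨ g i = 5 ∨ g i = 6) ∧ ∀ x, low m F x = (psi g x : ℤ) := by
  obtain ⟨g, h1, h2, h3⟩ := exists_labels m F hF hm hmeet
  refine ⟨g, h1, fun x => ?_⟩
  have h3' : (∃ a ∈ F, x ≤ a) ↔
      (ok g 0 x || ok g 1 x || ok g 2 x || ok g 3 x || ok g 4 x) = true := by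
    rw [h3 x]
    simp only [Bool.or_eq_true]
    constructor
    · rintro ⟨l, hl, h⟩
      interval_cases l <;> simp [h]
    · rintro ((((h | h) | h) | h) | h)
      exacts [⟨0, by norm_num, h⟩, ⟨1, by norm_num, h⟩, ⟨2, by norm_num, h⟩, ⟨3, by norm_num, h⟩,
        ⟨4, by norm_num, h⟩]
  unfold low psi
  by_cases a1 : x ≤ m <;> by_cases a2 : ∃ a ∈ F, x ≤ a
  · rw [if_pos a1, if_pos a2, if_pos ((h2 x).1 a1), if_pos (h3'.1 a2)]; norm_num
  · rw [if_pos a1, if_neg a2, if_pos ((h2 x).1 a1), if_neg (fun h => a2 (h3'.2 h))]; norm_num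
  · rw [if_neg a1, if_pos a2, if_neg (fun h => a1 ((h2 x).2 h)), if_pos (h3'.1 a2)]; norm_num
  · rw [if_neg a1, if_neg a2, if_neg (fun h => a1 ((h2 x).2 h)),
      if_neg (fun h => a2 (h3'.2 h))]; norm_num

theorem L_low (m : B 5) (F : Set (B 5)) (hF : F.Nonempty) (hm : ∀ a ∈ F, m ≤ a)
    (hmeet : ∀ a ∈ F, ∀ b ∈ F, a ≠ b → a ⊓ b = m) : 0 ≤ L (low m F) ∧
      0 ≤ L (fun x => low m F (cpl x)) := by
  obtain ⟨g, h1, h2⟩ := low_eq m F hF hm hmeet
  constructor
  · rw [L_cast _ _ h2]
    have := LZ_psi_nonneg false g h1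
    exact_mod_cast this
  · rw [L_cast _ (fun x => psi g (cpl x)) (fun x => h2 (cpl x))]
    have := LZ_psi_nonneg true g h1
    exact_mod_cast this

/-! ### Restriction of fans to `{0,1}⁵` -/

section restrict

variable {k : ℕ} (hk : 5 ≤ k)

include hk

omit hk in
/-- extension by zeros -/
def ext (k : ℕ) (x : B 5) : B k := fun i => if h : (i : ℕ) < 5 then x ⟨i, h⟩ else false

/-- restriction to the first five coordinates -/
def res (y : B k) : B 5 := fun i => y (Fin.castLE hk i)

theorem res_ext (x : B 5) : res hk (ext k x) = x := by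
  funext i
  simp [res, ext]

theorem ext_le_iff (x : B 5) (a : B k) : ext k x ≤ a ↔ x ≤ res hk a := by
  constructor
  · intro h i
    have := h (Fin.castLE hk i)
    have h2 : ext k x (Fin.castLE hk i) = x i := by simp [ext]
    rw [h2] at this
    exact this
  · intro h i
    unfold ext
    split
    · rename_i h5
      exact h ⟨i, h5⟩
    · exact Bool.false_le _

theorem le_ext_iff (x : B 5) (a : B k) : a ≤ ext k x ↔ a ≤ ext k ⊤ ∧ res hk a ≤ x := by
  constructor
  · intro h
    refine ⟨fun i => (h i).trans ?_, fun i => ?_⟩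
    · unfold ext
      split
      · exact le_top
      · exact le_rfl
    · have := h (Fin.castLE hk i)
      simpa [ext, res] using this
  · rintro ⟨h1, h2⟩ i
    by_cases h5 : (i : ℕ) < 5
    · have := h2 ⟨i, h5⟩
      simpa [ext, res, h5] using this
    · have := h1 i
      simpa [ext, h5] using this

theorem res_inf (a b : B k) : res hk (a ⊓ b) = res hk a ⊓ res hk b := rfl

theorem res_sup (a b : B k) : res hk (a ⊔ b) = res hk a ⊔ res hk b := rfl

omit hk in
theorem cpl_le_cpl (x y : B 5) : cpl x ≤ cpl y ↔ y ≤ x := by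
  constructor
  · intro h i
    have h' : ∀ a b : Bool, (!a) ≤ (!b) → b ≤ a := by decide
    exact h' _ _ (h i)
  · intro h i
    have h' : ∀ a b : Bool, b ≤ a → (!a) ≤ (!b) := by decide
    exact h' _ _ (h i)

omit hk in
theorem cpl_sup (x y : B 5) : cpl (x ⊔ y) = cpl x ⊓ cpl y := by
  funext i
  simp only [cpl, Pi.sup_apply, Pi.inf_apply]
  cases x i <;> cases y i <;> decide

omit hk in
theorem low_of_nonempty (m : B 5) (F : Set (B 5)) (hF : F.Nonempty) (hm : ∀ a ∈ F, m ≤ a)
    (x : B 5) [Decidable (x ≤ m)] [Decidable (∃ a ∈ F, x ≤ a)] :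
    (if x ≤ m then (-2 : ℝ) else if ∃ a ∈ F, x ≤ a then -1 else 0) = low m F x := by
  unfold low
  by_cases h1 : x ≤ m
  · have h2 : ∃ a ∈ F, x ≤ a := by
      obtain ⟨a, ha⟩ := hF
      exact ⟨a, ha, h1.trans (hm a ha)⟩
    rw [if_pos h1, if_pos h1, if_pos h2]
    norm_num
  · by_cases h2 : ∃ a ∈ F, x ≤ a
    · rw [if_neg h1, if_neg h1, if_pos h2, if_pos h2]
      norm_num
    · rw [if_neg h1, if_neg h1, if_neg h2, if_neg h2]
      norm_num

theorem L_lowerFan (φ : B k → ℝ) (hφ : IsLowerFan φ) : 0 ≤ L (fun x => φ (ext k x)) := by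
  classical
  obtain ⟨A, -, hA, rfl⟩ := hφ
  rcases A.eq_empty_or_nonempty with rfl | hne
  · have : (fun x => lowerFan (∅ : Finset (B k)) (ext k x)) = fun _ => (-2 : ℝ) := by
      funext x
      simp [lowerFan]
    rw [this, L_const]
  · have key : (fun x => lowerFan A (ext k x)) =
        low (res hk (A.inf id)) (res hk '' (A : Set (B k))) := by
      funext x
      rw [← low_of_nonempty _ _ (Set.Nonempty.image _ hne)]
      · unfold lowerFan
        simp only [ext_le_iff hk, Set.exists_mem_image, Finset.mem_coe]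
      · rintro _ ⟨a, ha, rfl⟩
        intro i
        exact (Finset.inf_le ha : A.inf id ≤ id a) _
    rw [key]
    refine (L_low _ _ (Set.Nonempty.image _ hne) ?_ ?_).1
    · rintro _ ⟨a, ha, rfl⟩
      intro i
      exact (Finset.inf_le ha : A.inf id ≤ id a) _
    · rintro _ ⟨a, ha, rfl⟩ _ ⟨b, hb, rfl⟩ hab
      rw [← res_inf, hA a ha b hb (fun h => hab (by rw [h]))]

theorem L_upperFan (φ : B k → ℝ) (hφ : IsUpperFan φ) : 0 ≤ L (fun x => φ (ext k x)) := by
  classical
  obtain ⟨A, -, hA, rfl⟩ := hφ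
  rcases A.eq_empty_or_nonempty with rfl | hne
  · have : (fun x => upperFan (∅ : Finset (B k)) (ext k x)) = fun _ => (-2 : ℝ) := by
      funext x
      simp [upperFan]
    rw [this, L_const]
  · by_cases hT : A.sup id ≤ ext k ⊤
    · have hle : ∀ a ∈ A, a ≤ A.sup id := fun a ha => Finset.le_sup (f := id) ha
      have key : (fun x => upperFan A (ext k x)) = fun x =>
          low (cpl (res hk (A.sup id))) ((fun a => cpl (res hk a)) '' (A : Set (B k))) (cpl x) := by
        funext x
        rw [← low_of_nonempty _ _ (Set.Nonempty.image _ hne)]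
        · unfold upperFan
          simp only [le_ext_iff hk x, Set.exists_mem_image, Finset.mem_coe, cpl_le_cpl, hT,
            true_and]
          have : (∃ a ∈ A, a ≤ ext k ⊤ ∧ res hk a ≤ x) ↔ ∃ a ∈ A, res hk a ≤ x := by
            constructor
            · rintro ⟨a, ha, -, h⟩
              exact ⟨a, ha, h⟩
            · rintro ⟨a, ha, h⟩
              exact ⟨a, ha, (hle a ha).trans hT, h⟩
          simp only [this]
        · rintro _ ⟨a, ha, rfl⟩
          rw [cpl_le_cpl]
          intro i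
          exact hle a ha _
      rw [key]
      refine (L_low _ _ (Set.Nonempty.image _ hne) ?_ ?_).2
      · rintro _ ⟨a, ha, rfl⟩
        change cpl _ ≤ cpl _
        rw [cpl_le_cpl]
        intro i
        exact hle a ha _
      · rintro _ ⟨a, ha, rfl⟩ _ ⟨b, hb, rfl⟩ hab
        change cpl _ ⊓ cpl _ = _
        rw [← cpl_sup, ← res_sup, hA a ha b hb (fun h => hab (by rw [h]))]
    · -- at most one element of `A` lies in the subcube
      have h0 : ∀ x, ¬ A.sup id ≤ ext k x := fun x h => hT ((le_ext_iff hk x _).1 h).1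
      by_cases hex : ∃ a ∈ A, a ≤ ext k ⊤
      · obtain ⟨a, ha, hat⟩ := hex
        have huniq : ∀ b ∈ A, b ≤ ext k ⊤ → b = a := by
          intro b hb hbt
          by_contra hba
          apply hT
          rw [← hA b hb a ha hba]
          exact sup_le hbt hat
        have key : (fun x => upperFan A (ext k x)) = fun x =>
            (1 / 2 : ℝ) * low (cpl (res hk a)) {cpl (res hk a)} (cpl x) := by
          funext x
          have h1 : (∃ b ∈ A, b ≤ ext k x) ↔ res hk a ≤ x := by
            constructor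
            · rintro ⟨b, hb, hbx⟩
              rw [le_ext_iff hk] at hbx
              rw [← huniq b hb hbx.1]
              exact hbx.2
            · intro h
              exact ⟨a, ha, (le_ext_iff hk x a).2 ⟨hat, h⟩⟩
          unfold upperFan low
          simp only [h0 x, if_false, h1, Set.mem_singleton_iff, exists_eq_left, cpl_le_cpl]
          split_ifs <;> norm_num
        rw [key, L_smul]
        have := (L_low (cpl (res hk a)) {cpl (res hk a)} (Set.singleton_nonempty _)
          (by rintro b rfl; exact le_rfl) (by rintro b rfl c rfl h; exact absurd rfl h)).2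
        positivity
      · have key : (fun x => upperFan A (ext k x)) = fun _ => (0 : ℝ) := by
          funext x
          unfold upperFan
          rw [if_neg (h0 x), if_neg]
          rintro ⟨a, ha, h⟩
          exact hex ⟨a, ha, ((le_ext_iff hk x a).1 h).1⟩
        rw [key, L_const]

end restrict

/-! ### The function -/

/-- a bit as a real number -/
def bit (b : Bool) : ℝ := if b then 1 else 0

/-- the weight `x₁ + x₂ + x₃ + x₄ + 2 x₅` -/
def wt (x : B 5) : ℝ := bit (x 0) + bit (x 1) + bit (x 2) + bit (x 3) + 2 * bit (x 4)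

/-- `- max(0, x₁ + x₂ + x₃ + x₄ + 2 x₅ - 3)` -/
noncomputable def f5 (x : B 5) : ℝ := -max 0 (wt x - 3)

def bitZ (b : Bool) : ℤ := if b then 1 else 0

def f5Z (x : B 5) : ℤ :=
  -max 0 (bitZ (x 0) + bitZ (x 1) + bitZ (x 2) + bitZ (x 3) + 2 * bitZ (x 4) - 3)

theorem f5_cast (x : B 5) : f5 x = (f5Z x : ℤ) := by
  have h : ∀ b, bit b = (bitZ b : ℤ) := by
    intro b
    cases b <;> simp [bit, bitZ]
  simp only [f5, f5Z, wt, h]
  push_cast
  rfl

theorem L_f5 : L f5 = -2 := by
  rw [L_cast f5 f5Z f5_cast]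
  have : LZ f5Z = -2 := by decide +kernel
  rw [this]
  norm_num

theorem bit_nonneg (b : Bool) : 0 ≤ bit b := by
  cases b <;> simp [bit]

theorem bit_mod (a b : Bool) : bit (a ⊓ b) + bit (a ⊔ b) = bit a + bit b := by
  cases a <;> cases b <;> simp [bit]

theorem bit_mono (a b : Bool) (h : a ≤ b) : bit a ≤ bit b := by
  revert h
  cases a <;> cases b <;> simp [bit]

theorem wt_mod (u v : B 5) : wt (u ⊓ v) + wt (u ⊔ v) = wt u + wt v := by
  have h := fun i => bit_mod (u i) (v i)
  have h0 := h 0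
  have h1 := h 1
  have h2 := h 2
  have h3 := h 3
  have h4 := h 4
  simp only [wt, Pi.inf_apply, Pi.sup_apply]
  linarith

theorem wt_mono (u v : B 5) (h : u ≤ v) : wt u ≤ wt v := by
  have h := fun i => bit_mono (u i) (v i) (h i)
  have h0 := h 0
  have h1 := h 1
  have h2 := h 2
  have h3 := h 3
  have h4 := h 4
  simp only [wt]
  linarith

theorem f5_submodular (u v : B 5) : f5 (u ⊓ v) + f5 (u ⊔ v) ≤ f5 u + f5 v := by
  have h1 := wt_mod u v
  have h2 := wt_mono _ _ (inf_le_left : u ⊓ v ≤ u)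
  have h3 := wt_mono _ _ (inf_le_right : u ⊓ v ≤ v)
  have h4 := wt_mono _ _ (le_sup_left : u ≤ u ⊔ v)
  have h5 := wt_mono _ _ (le_sup_right : v ≤ u ⊔ v)
  unfold f5
  rcases max_cases 0 (wt (u ⊓ v) - 3) with ⟨e1, e1'⟩ | ⟨e1, e1'⟩ <;>
  rcases max_cases 0 (wt (u ⊔ v) - 3) with ⟨e2, e2'⟩ | ⟨e2, e2'⟩ <;>
  rcases max_cases 0 (wt u - 3) with ⟨e3, e3'⟩ | ⟨e3, e3'⟩ <;>
  rcases max_cases 0 (wt v - 3) with ⟨e4, e4'⟩ | ⟨e4, e4'⟩ <;>
  rw [e1, e2, e3, e4] <;> linarith

section restrict2

variable {k : ℕ} (hk : 5 ≤ k)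

theorem expressible : Expressible fun x : B k => f5 (res hk x) := by
  refine ⟨1, 6, fun i p => if (i : ℕ) < 5 then -(bit (p 0) * bit (p 1)) else bit (p 1),
    ![1, 1, 1, 1, 2, 3],
    fun i => if h : (i : ℕ) < 5 then Sum.inl (Fin.castLE hk ⟨i, h⟩) else Sum.inr 0,
    fun _ => Sum.inr 0, 0, ?_, ?_, ?_⟩
  · intro i u v
    by_cases h : (i : ℕ) < 5
    · simp only [h, if_true, Pi.inf_apply, Pi.sup_apply]
      cases u 0 <;> cases u 1 <;> cases v 0 <;> cases v 1 <;> simp [bit]
    · simp only [h, if_false, Pi.inf_apply, Pi.sup_apply]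
      exact (bit_mod _ _).le
  · intro i
    fin_cases i <;> simp
  · intro x
    have key : ∀ y : B 1, (∑ i : Fin 6, (![1, 1, 1, 1, 2, 3] : Fin 6 → ℝ) i *
        (fun (i : Fin 6) (p : B 2) => if (i : ℕ) < 5 then -(bit (p 0) * bit (p 1)) else bit (p 1)) i
          ![Sum.elim x y ((fun i : Fin 6 => if h : (i : ℕ) < 5 then
            (Sum.inl (Fin.castLE hk ⟨i, h⟩) : Fin k ⊕ Fin 1) else Sum.inr 0) i),
            Sum.elim x y ((fun _ => Sum.inr 0 : Fin 6 → Fin k ⊕ Fin 1) i)]) + 0 =
        bit (y 0) * (3 - wt (res hk x)) := by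
      intro y
      simp only [Fin.sum_univ_succ, Fin.sum_univ_zero, wt, res]
      simp [Fin.succ]
      ring
    simp only [key]
    constructor
    · rcases le_total 0 (wt (res hk x) - 3) with h | h
      · refine ⟨fun _ => true, ?_⟩
        simp only [f5, max_eq_right h, bit, if_true]
        ring
      · refine ⟨fun _ => false, ?_⟩
        simp [f5, max_eq_left h, bit]
    · rintro _ ⟨y, rfl⟩
      have h1 := le_max_left 0 (wt (res hk x) - 3)
      have h2 := le_max_right 0 (wt (res hk x) - 3)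
      change -max 0 (wt (res hk x) - 3) ≤ bit (y 0) * (3 - wt (res hk x))
      cases y 0
      · simp only [bit]
        norm_num
      · simp only [bit, if_true]
        linarith

end restrict2

/-- **The cone of fans does not contain all submodular functions expressible by binary submodular
functions.** For every `k ≥ 5` there is a submodular function on `{0,1}ᵏ` which is expressible by
binary submodular functions and which is not a nonnegative combination of fans plus a constant. -/
theorem result (k : ℕ) (hk : 5 ≤ k) :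
    ∃ f : B k → ℝ, Submodular f ∧ Expressible f ∧ ¬ InFanCone f := by
  refine ⟨fun x => f5 (res hk x), fun u v => f5_submodular (res hk u) (res hk v),
    expressible hk, ?_⟩
  rintro ⟨N, φ, c, κ, hφ, hc, h⟩
  have h1 : f5 = fun x => (∑ i, c i * φ i (ext k x)) + κ := by
    funext x
    have := h (ext k x)
    simp only [res_ext] at this
    exact this
  have h2 : 0 ≤ L f5 := by
    rw [h1, L_add (fun x => ∑ i, c i * φ i (ext k x)) (fun _ => κ), L_const,
      L_sum (fun i x => c i * φ i (ext k x)), add_zero]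
    refine Finset.sum_nonneg fun i _ => ?_
    rw [L_smul]
    refine mul_nonneg (hc i) ?_
    rcases hφ i with h | h
    · exact L_upperFan hk _ h
    · exact L_lowerFan hk _ h
  rw [L_f5] at h2
  norm_num at h2

end Pool.Agent.Results.MP_09575c_lc.NotInCone
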